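import Pool.Agent.K4H49.KT.Two

/-! # Conservation laws of a generic Killing tensor of a constant curvature metric

We work in the standard conformal coordinates of a metric of constant sectional curvature `κ` and of
signature `s` (each `s i` is `1` or `-1`): on the open set where `ρ = 1 + (κ/4) Σ sᵢ xᵢ²` is positive,
`g = ρ⁻² Σ sᵢ dxᵢ²` (`modelMetric s κ`; `cf s κ` is `ρ`).  Every metric of constant curvature is locally
of this form.  All definitions are in `Pool/Agent/K4H49/KT/Defs.lean`.

`killingTensors g W` is the real vector space of real analytic `(1,1)`-Killing tensors `K = (K^i_j)` of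
`g` on the connected open set `W` (the values of `K` outside `W` are `0` by convention).

* For every `n ≥ 3` there is a real polynomial function `P` on this vector space, not identically zero,
  such that for every `K` with `P K ≠ 0` each smooth function `f` with `d(K^* df) = 0` on a connected open
  subset `U` of `W` is constant on `U`.
* For `n = 2` there is such a `P` so that, for every `K` with `P K ≠ 0`, near each point of an open dense
  subset of `W` there is a non-constant conservation law.
-/

namespace Pool.Agent.Results.MP_e1e8f4_mp.GenericKillingTensor

open Pool.Agent.K4H49.KT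

/-- For `n ≥ 3` a generic `(1,1)`-Killing tensor of a metric of constant curvature (of any signature)
has only constant local conservation laws; for `n = 2` a generic one has non-constant ones. -/
theorem result (n : ℕ) (s : Fin n → ℝ) (hs : ∀ i, s i = 1 ∨ s i = -1) (κ : ℝ)
    (W : Set (Fin n → ℝ)) (hW : IsOpen W) (hWc : IsConnected W) (hWD : ∀ x ∈ W, 0 < cf s κ x) :
    (3 ≤ n → HoldsGenerically fun K : killingTensors (modelMetric s κ) W => OnlyConstantLaws K.1 W) ∧
    (n = 2 → HoldsGenerically fun K : killingTensors (modelMetric s κ) W => HasNontrivialLaws K.1 W) := by
  refine ⟨fun hn => main n hn s hs κ W hW hWc hWD, ?_⟩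
  rintro rfl
  exact main_two s hs κ W hW hWc hWD

end Pool.Agent.Results.MP_e1e8f4_mp.GenericKillingTensor
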